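import Pool.Agent.helper74.MQ.Spec

set_option autoImplicit false

open Complex Metric Set Filter Topology MeasureTheory MPS

noncomputable section

namespace MQ

theorem FINS_mono {k : ℕ} [NeZero k] (b g : ZMod k → ℂ) (ψ : ℂ → ℂ) (y d d' : ℝ) (hd : d ≤ d')
    (h : Slit b g ψ d y) : Slit b g ψ d' y := by
  intro h'
  apply h
  obtain ⟨e, he, χ, hχ, hE⟩ := h'
  refine ⟨e, he, χ, ?_, hE⟩
  have hsub : HP 0 ∪ {w : ℂ | |w.im - y| < e ∧ w.re < d + e} ⊆
      HP 0 ∪ {w : ℂ | |w.im - y| < e ∧ w.re < d' + e} := by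
    rintro w (hw | hw)
    · exact Or.inl hw
    · exact Or.inr ⟨hw.1, by have := hw.2; linarith⟩
  exact ⟨hχ.diff.mono hsub, fun w hw => hχ.av w (hsub hw), fun w hw => hχ.eq w (hsub hw)⟩

open Classical in
theorem FINS_card (hTP : TP_stmt) (hEND : END_stmt) (hPRONG : PRONG_stmt) (k : ℕ) [NeZero k]
    (b g : ZMod k → ℂ) (ψ : ZMod k → ℂ → ℂ) (hF : Fam b g ψ) (i : ZMod k) (d : ℝ) (hd : 0 < d)
    (F : Finset ℝ) (hFS : ∀ y ∈ F, 0 ≤ y ∧ y < 2 * Real.pi ∧ Slit b g (ψ i) d y) :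
    F.card ≤ 3 * (2 * k - 1) := by
  obtain ⟨-, hPb, hPdeg⟩ := hTP k b g hF.inj
  obtain ⟨hdeg, -⟩ := hPdeg hF.sum
  have hP0 : Ppoly b g ≠ 0 := by
    intro h0
    apply hPb 0
    rw [h0, Polynomial.eval_zero]
  have hE : ∀ y : ℝ, ∃ ζ : ℂ, y ∈ F → ((Ppoly b g).eval ζ = 0 ∧ Ends b g (ψ i) y ζ) := by
    intro y
    by_cases hy : y ∈ F
    · obtain ⟨ζ, h1, h2⟩ := hEND k b g i (ψ i) d y hF.inj hF.sum (hF.mx i).pn hd (hFS y hy).2.2
      exact ⟨ζ, fun _ => ⟨h1, h2⟩⟩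
    · exact ⟨0, fun h => absurd h hy⟩
  choose E hE' using hE
  have hmaps : ∀ y ∈ F, E y ∈ (Ppoly b g).roots.toFinset := by
    intro y hy
    rw [Multiset.mem_toFinset, Polynomial.mem_roots hP0]
    exact (hE' y hy).1
  have hfib := Finset.card_eq_sum_card_fiberwise hmaps
  have hle : ∀ ζ ∈ (Ppoly b g).roots.toFinset, (F.filter (fun y => E y = ζ)).card ≤
      3 * (Ppoly b g).roots.count ζ := by
    intro ζ hζ
    rw [Multiset.mem_toFinset] at hζ
    have h0 : (Ppoly b g).eval ζ = 0 := (Polynomial.mem_roots hP0).1 hζ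
    have h1 := hPRONG k b g ψ ζ ((F.filter (fun y => E y = ζ)).image (fun y => (i, y))) hF.inj
      (fun j => (hF.mx j).pn) h0 (by
      intro p hp
      rw [Finset.mem_image] at hp
      obtain ⟨y, hy, rfl⟩ := hp
      rw [Finset.mem_filter] at hy
      have h4 := hFS y hy.1
      refine ⟨h4.1, h4.2.1, ?_⟩
      rw [← hy.2]
      exact (hE' y hy.1).2)
    rw [Finset.card_image_of_injective _ (fun a c h => congrArg Prod.snd h)] at h1
    have h2 : 1 ≤ (Ppoly b g).roots.count ζ := Multiset.one_le_count_iff_mem.2 hζ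
    rw [Polynomial.count_roots] at h2 ⊢
    omega
  rw [hfib]
  refine le_trans (Finset.sum_le_sum hle) ?_
  rw [← Finset.mul_sum, Multiset.toFinset_sum_count_eq]
  have := Polynomial.card_roots' (Ppoly b g)
  rw [hdeg] at this
  exact Nat.mul_le_mul_left 3 this

theorem FINS (hTP : TP_stmt) (hEND : END_stmt) (hPRONG : PRONG_stmt) : FINS_stmt := by
  intro k _ b g ψ hF i d
  by_contra hinf
  obtain ⟨F, hFS, hFc⟩ := (show Set.Infinite _ from hinf).exists_subset_card_eq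
    (3 * (2 * k - 1) + 1)
  have h := FINS_card hTP hEND hPRONG k b g ψ hF i (max d 1) (lt_max_of_lt_right one_pos) F
    (fun y hy => by
      have h1 := hFS hy
      exact ⟨h1.1, h1.2.1, FINS_mono b g (ψ i) y d _ (le_max_left _ _) h1.2.2⟩)
  omega

end MQ

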